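import Pool.Agent.H2.NL.Basic

/-!
# Numerically trivial correspondences: row PHA (from a phantom of the system to a phantom on a power
of `T`)
-/

set_option autoImplicit false

open Matrix Pool.Agent.H2.NL Pool.Agent.H64.CC

namespace Pool.Agent.H16.NL

section aux

variable {K : Type} [Field K]

private theorem zip_ne {I J : Type} (j : Matrix I J K) (o : I → Bool) (o' : J → Bool)
    (h : ∀ a b, j a b ≠ 0 → o a = o' b) : ∀ (u : List I) (v : List J), u.length = v.length →
    (List.zipWith (fun a b => j a b) u v).prod ≠ 0 → sgw K o u = sgw K o' v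
  | [], [], _, _ => rfl
  | a :: u, b :: v, hl, hp => by
    rw [List.zipWith_cons_cons, List.prod_cons] at hp
    have h1 := left_ne_zero_of_mul hp
    have h2 := right_ne_zero_of_mul hp
    have h3 := zip_ne j o o' h u v (by simpa using hl) h2
    unfold sgw at h3 ⊢
    rw [List.map_cons, List.prod_cons, List.map_cons, List.prod_cons, h a b h1, h3]

private theorem str_cyc {A B : Type} [Fintype A] [Fintype B] (s : A → K) (s' : B → K)
    (X : Matrix A B K) (Y : Matrix B A K) (hY : ∀ b a, Y b a ≠ 0 → s' b = s a) :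
    ∑ a, s a * (X * Y) a a = ∑ b, s' b * (Y * X) b b := by
  simp only [Matrix.mul_apply, Finset.mul_sum]
  rw [Finset.sum_comm]
  refine Finset.sum_congr rfl fun b _ => Finset.sum_congr rfl fun a _ => ?_
  by_cases h : Y b a = 0
  · rw [h]; ring
  · rw [hY b a h]; ring

private theorem sgw_par [CharZero K] (W : Weil K) {m : ℕ} (T : W.Var m) :
    ∀ w : List (Fin (W.rk T)), (-1 : K) ^ ((w.map (W.deg T)).sum) = sgw K (W.par T) w
  | [] => by simp [sgw]
  | a :: w => by
    have ih := sgw_par W T w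
    have h1 : (-1 : K) ^ (W.deg T a) = sg K (W.par T a) := by
      unfold sg Weil.par
      by_cases h : Odd (W.deg T a)
      · rw [h.neg_one_pow, if_pos (decide_eq_true h)]
      · rw [(Nat.not_odd_iff_even.1 h).neg_one_pow, if_neg]
        rw [decide_eq_false h]; exact Bool.false_ne_true
    rw [List.map_cons, List.sum_cons, pow_add, h1, ih]
    unfold sgw
    rw [List.map_cons, List.prod_cons]

end aux

theorem pf_PHA (hPFB : T_PFB) (hOPJ : T_OPJ) (hIDS : T_IDS) (hOPG : T_OPG) : T_PHA := by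
  intro K _ _ W hW m T P ρ hρ hρρ U n n' D l hex hno
  obtain ⟨e, he, hee, hne, htr⟩ := hex
  -- the bijection of the basis of the power with the words
  obtain ⟨σ, hσ⟩ : ∃ σ : Fin (W.rk (P.pow l)) ≃ List.Vector (Fin (W.rk T)) l,
      ∀ a, (σ a).1 = P.word l a := by
    refine ⟨Equiv.ofBijective (fun a => ⟨P.word l a, (P.word_range l _).1 ⟨a, rfl⟩⟩)
      ⟨fun a b h => P.word_inj l (congrArg Subtype.val h), fun v => ?_⟩, fun a => rfl⟩
    obtain ⟨a, ha⟩ := (P.word_range l v.1).2 v.2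
    exact ⟨a, Subtype.ext ha⟩
  have hsub : ∀ t : List (Fin (W.rk T)) → K,
      (Matrix.of fun a b => opw P.form l t (P.word l a) (P.word l b)) =
        (op P.form l t).submatrix σ σ := by
    intro t
    ext a b
    show opw P.form l t (P.word l a) (P.word l b) = opw P.form l t (σ a).1 (σ b).1
    rw [hσ, hσ]
  have hinj : ∀ X Y : Matrix (List.Vector (Fin (W.rk T)) l) (List.Vector (Fin (W.rk T)) l) K,
      X.submatrix σ σ = Y.submatrix σ σ → X = Y := by
    intro X Y h
    ext u v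
    have h1 := congrFun (congrFun h (σ.symm u)) (σ.symm v)
    rw [Matrix.submatrix_apply, Matrix.submatrix_apply, Equiv.apply_symm_apply,
      Equiv.apply_symm_apply] at h1
    exact h1
  have hg : ∀ X : Matrix (List.Vector (Fin (W.rk T)) l) (List.Vector (Fin (W.rk T)) l) K,
      X.submatrix σ σ ∈ W.cyc (P.pow l) (P.pow l) 0 ↔
        ∃ t ∈ P.toPowerData.classes l, X = op P.form l t := by
    intro X
    refine (P.graph l (X.submatrix σ σ)).trans ⟨?_, ?_⟩
    · rintro ⟨t, ht, hX⟩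
      exact ⟨t, ht, hinj _ _ (hX.trans (hsub t))⟩
    · rintro ⟨t, ht, hX⟩
      refine ⟨t, ht, ?_⟩
      rw [hsub t, hX]
  have hmul : ∀ X Y : Matrix (List.Vector (Fin (W.rk T)) l) (List.Vector (Fin (W.rk T)) l) K,
      X.submatrix σ σ * Y.submatrix σ σ = (X * Y).submatrix σ σ :=
    fun X Y => Matrix.submatrix_mul_equiv X Y σ σ σ
  have hcomp : ∀ X Y : Matrix (List.Vector (Fin (W.rk T)) l) (List.Vector (Fin (W.rk T)) l) K,
      X.submatrix σ σ ∈ W.cyc (P.pow l) (P.pow l) 0 →
      Y.submatrix σ σ ∈ W.cyc (P.pow l) (P.pow l) 0 →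
      (X * Y).submatrix σ σ ∈ W.cyc (P.pow l) (P.pow l) 0 := by
    intro X Y hX hY
    have h1 := hW.calculus.comp_mem (P.pow l) (P.pow l) (P.pow l) 0 0 _ hY _ hX
    rw [← hmul]
    rw [add_zero] at h1
    exact h1
  -- the matrices
  obtain ⟨J, hJ⟩ : ∃ J, J = Jm D.j l := ⟨_, rfl⟩
  obtain ⟨I, hI⟩ : ∃ I, I = Jm D.i l := ⟨_, rfl⟩
  obtain ⟨R, hR⟩ : ∃ R, R = Jm ρ l := ⟨_, rfl⟩
  obtain ⟨E, hE⟩ : ∃ E, E = op D.F.η l e := ⟨_, rfl⟩
  have hIJ : I * J = 1 := by
    rw [hI, hJ, (hPFB K _ _ _ D.i D.j).2.2.1 l, D.ij, (hPFB K _ _ _ D.i D.j).2.2.2 l]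
  have hJI : J * I = R := by
    rw [hI, hJ, hR, (hPFB K _ _ _ D.j D.i).2.2.1 l, D.ji]
  have hRR : R * R = R := by
    rw [hR, (hPFB K _ _ _ ρ ρ).2.2.1 l, hρρ]
  have hIR : I * R = I := by
    rw [← hJI, ← Matrix.mul_assoc, hIJ, Matrix.one_mul]
  have hRJ : R * J = J := by
    rw [← hJI, Matrix.mul_assoc, hIJ, Matrix.mul_one]
  have hop : ∀ t : List (Fin n ⊕ Fin n') → K, op P.form l (pf D.j t) = J * op D.F.η l t * I := by
    intro t
    rw [hJ, hI]
    exact hOPJ K _ _ P.form D.F.η D.j D.i D.form_i l t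
  have he' : pf D.j e ∈ P.toPowerData.classes l := he
  obtain ⟨f, hf⟩ : ∃ f, f = J * E * I := ⟨_, rfl⟩
  have hfc : f.submatrix σ σ ∈ W.cyc (P.pow l) (P.pow l) 0 := by
    refine (hg f).2 ⟨_, he', ?_⟩
    rw [hop e, hf, hE]
  rw [← hE] at hee hne
  have hff : f * f = f := by
    rw [hf]
    calc J * E * I * (J * E * I) = J * E * (I * J) * E * I := by simp only [Matrix.mul_assoc]
      _ = J * (E * E) * I := by rw [hIJ, Matrix.mul_one]; simp only [Matrix.mul_assoc]
      _ = J * E * I := by rw [hee]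
  have hf0 : f ≠ 0 := by
    intro h0
    apply hne
    calc E = (I * J) * E * (I * J) := by rw [hIJ, Matrix.one_mul, Matrix.mul_one]
      _ = I * (J * E * I) * J := by simp only [Matrix.mul_assoc]
      _ = 0 := by rw [← hf, h0, Matrix.mul_zero, Matrix.zero_mul]
  have hstr : ∀ X : Matrix (List.Vector (Fin (W.rk T)) l) (List.Vector (Fin (W.rk T)) l) K,
      W.str (X.submatrix σ σ) = ∑ u, sgw K (W.par T) u.1 * X u u := by
    intro X
    have h1 : ∀ a, (-1 : K) ^ W.deg (P.pow l) a = sgw K (W.par T) (σ a).1 := by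
      intro a
      rw [P.word_deg, sgw_par, hσ]
    have h2 : W.str (X.submatrix σ σ) = ∑ a, sgw K (W.par T) (σ a).1 * X (σ a) (σ a) := by
      unfold Weil.str
      refine Finset.sum_congr rfl fun a _ => ?_
      rw [h1 a, Matrix.submatrix_apply]
    rw [h2]
    exact Equiv.sum_comp σ (fun u => sgw K (W.par T) u.1 * X u u)
  -- the class of the projector
  have hω1 : P.form * P.form⁻¹ = 1 := Matrix.mul_nonsing_inv _
    ((Matrix.isUnit_iff_isUnit_det _).1 P.form_unit)
  have hω2 : P.form⁻¹ * P.form = 1 := Matrix.nonsing_inv_mul _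
    ((Matrix.isUnit_iff_isUnit_det _).1 P.form_unit)
  obtain ⟨s, hs⟩ : ∃ s, s = ρ * P.form⁻¹ := ⟨_, rfl⟩
  have hsη : s * P.form = ρ := by rw [hs, Matrix.mul_assoc, hω2, Matrix.mul_one]
  have htwo : two s ∈ P.toPowerData.classes 1 := by
    obtain ⟨t, ht, hρt⟩ := (P.graph_one ρ).1 hρ
    have h1 : op P.form 1 t = op P.form 1 (two s) := by
      rw [(hOPG K _ P.form P.form⁻¹ hω1 hω2 1).2.2.2.2 s, hsη]
      ext u v
      match u, v with
      | ⟨[a], _⟩, ⟨[b], _⟩ =>
        have h2 := congrFun (congrFun hρt a) b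
        show opw P.form 1 t [a] [b] = (List.zipWith (fun a b => ρ a b) [a] [b]).prod
        rw [List.zipWith_cons_cons, List.zipWith_nil_left, List.prod_cons, List.prod_nil, mul_one,
          h2]
        rfl
    exact P.calculus.congr 1 t (two s) ht fun w hw =>
      ((hOPG K _ P.form P.form⁻¹ hω1 hω2 1).1 t (two s) h1 w hw).symm
  have hRc : R.submatrix σ σ ∈ W.cyc (P.pow l) (P.pow l) 0 := by
    refine (hg R).2 ⟨idt s l, hIDS K _ _ P.form P.form⁻¹ _ P.calculus s htwo l, ?_⟩
    rw [(hOPG K _ P.form P.form⁻¹ hω1 hω2 l).2.2.2.1 s, hsη, hR]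
  -- numerical triviality
  have hnt : W.NumTrivial (P.pow l) (f.submatrix σ σ) := by
    intro g hgc
    obtain ⟨Y, hY⟩ : ∃ Y : Matrix (List.Vector (Fin (W.rk T)) l) (List.Vector (Fin (W.rk T)) l) K,
        g = Y.submatrix σ σ := by
      refine ⟨g.submatrix σ.symm σ.symm, ?_⟩
      ext a b
      simp
    rw [hY] at hgc ⊢
    obtain ⟨y1, hy1, hz⟩ := (hg (R * Y * R)).1 (hcomp _ _ (hcomp _ _ hRc hgc) hRc)
    have h1 : op P.form l (pf ρ y1) = op P.form l y1 := by
      rw [hOPJ K _ _ P.form P.form ρ ρ D.adj l y1, ← hz, ← hR]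
      calc R * (R * Y * R) * R = (R * R) * Y * (R * R) := by simp only [Matrix.mul_assoc]
        _ = R * Y * R := by rw [hRR]
    have h2 := (hOPG K _ P.form P.form⁻¹ hω1 hω2 l).1 _ _ h1
    have h3 : pf D.j (pf D.i y1) = pf ρ y1 := by
      rw [(hPFB K _ _ _ D.j D.i).1 y1, D.ji]
    have h4 : pf D.i y1 ∈ pull D.j P.toPowerData.classes l := by
      show pf D.j (pf D.i y1) ∈ P.toPowerData.classes l
      rw [h3]
      exact P.calculus.congr l y1 _ hy1 h2
    have h5 : op D.F.η l (pf D.i y1) = I * Y * J := by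
      have h6 := hop (pf D.i y1)
      rw [h3, h1, ← hz] at h6
      calc op D.F.η l (pf D.i y1) = (I * J) * op D.F.η l (pf D.i y1) * (I * J) := by
            rw [hIJ, Matrix.one_mul, Matrix.mul_one]
        _ = I * (J * op D.F.η l (pf D.i y1) * I) * J := by simp only [Matrix.mul_assoc]
        _ = I * (R * Y * R) * J := by rw [← h6]
        _ = (I * R) * Y * (R * J) := by simp only [Matrix.mul_assoc]
        _ = I * Y * J := by rw [hIR, hRJ]
    have h7 := htr _ h4
    rw [h5, ← hE] at h7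
    have h8 : W.comp (Y.submatrix σ σ) (f.submatrix σ σ) = (Y * f).submatrix σ σ := hmul Y f
    rw [h8, hstr, hf]
    have h9 : Y * (J * E * I) = (Y * J * E) * I := by simp only [Matrix.mul_assoc]
    have h10 : I * (Y * J * E) = I * Y * J * E := by simp only [Matrix.mul_assoc]
    rw [h9, str_cyc (fun u : List.Vector (Fin (W.rk T)) l => sgw K (W.par T) u.1)
      (fun u : List.Vector (Fin n ⊕ Fin n') l => sgw K D.F.o u.1) (Y * J * E) I ?_, h10]
    · exact h7
    · intro b a hba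
      rw [hI] at hba
      refine zip_ne D.i D.F.o (W.par T) ?_ b.1 a.1 (b.2.trans a.2.symm) hba
      intro x y hxy
      rw [D.o_eq x, D.i_deg x y hxy]
      rfl
  have hfin := hno _ hfc ?_ hnt
  · apply hf0
    apply hinj
    rw [hfin]
    rfl
  · show f.submatrix σ σ * f.submatrix σ σ = f.submatrix σ σ
    rw [hmul, hff]

end Pool.Agent.H16.NL
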