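import Pool.Agent.H2.NL.Basic

/-!
# Numerically trivial correspondences: row SYS (the system of the motive `R`)
-/

set_option autoImplicit false

open Matrix Pool.Agent.H2.NL Pool.Agent.H64.CC

namespace Pool.Agent.H16.NL

section aux

variable {K : Type} [Field K]

private theorem str_cyc {A B : Type} [Fintype A] [Fintype B] (s : A → K) (s' : B → K)
    (X : Matrix A B K) (Y : Matrix B A K) (hY : ∀ b a, Y b a ≠ 0 → s' b = s a) :
    ∑ a, s a * (X * Y) a a = ∑ b, s' b * (Y * X) b b := by
  simp only [Matrix.mul_apply, Finset.mul_sum]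
  rw [Finset.sum_comm]
  refine Finset.sum_congr rfl fun b _ => Finset.sum_congr rfl fun a _ => ?_
  by_cases h : Y b a = 0
  · rw [h]; ring
  · rw [hY b a h]; ring

private theorem der_add {I : Type} [Fintype I] (T1 T2 : Matrix I I K) :
    ∀ (w : List I) (t : List I → K), der (T1 + T2) t w = der T1 t w + der T2 t w
  | [], t => by
    show (0 : K) = 0 + 0
    rw [add_zero]
  | a :: l, t => by
    show ∑ b, (T1 + T2) a b * t (b :: l) + der (T1 + T2) (fun l' => t (a :: l')) l =
      (∑ b, T1 a b * t (b :: l) + der T1 (fun l' => t (a :: l')) l) +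
      (∑ b, T2 a b * t (b :: l) + der T2 (fun l' => t (a :: l')) l)
    rw [der_add T1 T2 l]
    simp only [Matrix.add_apply, add_mul, Finset.sum_add_distrib]
    ring

private theorem pf_zero {I J : Type} [Fintype J] (j : Matrix I J K) :
    ∀ (w : List I) (t : List J → K), (∀ v : List J, v.length = w.length → t v = 0) →
      pf j t w = 0
  | [], t, h => h [] rfl
  | a :: w, t, h => by
    show ∑ b, j a b * pf j (fun l => t (b :: l)) w = 0
    refine Finset.sum_eq_zero fun b _ => ?_
    rw [pf_zero j w (fun l => t (b :: l)) fun v hv => h (b :: v) (by simp [hv]), mul_zero]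

private theorem sum_vec1 {I : Type} [Fintype I] (g : List I → K) :
    ∑ v : List.Vector I 1, g v.1 = ∑ c, g [c] := by
  let e : I ≃ List.Vector I 1 := {
    toFun := fun c => ⟨[c], rfl⟩
    invFun := fun v => v.head
    left_inv := fun c => rfl
    right_inv := fun v => by
      match v with
      | ⟨[a], _⟩ => rfl }
  exact (Equiv.sum_comp e (fun v => g v.1)).symm

private theorem sg_par [CharZero K] (W : Weil K) {m : ℕ} (T : W.Var m) (a : Fin (W.rk T)) :
    (-1 : K) ^ (W.deg T a) = sg K (W.par T a) := by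
  unfold sg Weil.par
  by_cases h : Odd (W.deg T a)
  · rw [h.neg_one_pow, if_pos (decide_eq_true h)]
  · rw [(Nat.not_odd_iff_even.1 h).neg_one_pow, if_neg]
    rw [decide_eq_false h]; exact Bool.false_ne_true

private theorem mul_eta {I : Type} [Fintype I] [DecidableEq I] (F : Form K I) (X : Matrix I I K)
    (a b : I) : (X * F.η) a b = X a (F.st b) * F.c (F.st b) := by
  rw [Matrix.mul_apply, Finset.sum_eq_single (F.st b)]
  · rw [Form.η, Matrix.of_apply, if_pos (F.st_st b).symm]
  · intro c _ hc
    rw [Form.η, Matrix.of_apply, if_neg, mul_zero]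
    intro h
    exact hc (by rw [h, F.st_st])
  · intro h
    exact absurd (Finset.mem_univ _) h

end aux

theorem pf_SYS (hVAN : T_VAN) (hSCA : T_SCA) (hCAL : T_CAL) (hPFA : T_PFA) (hPFB : T_PFB) :
    T_SYS := by
  intro K _ _ W hW V L hL r m T S ε hε hεε hεη hεv hmax U hU n n' D
  obtain ⟨-, -, -, hV4⟩ := hVAN K W hW V L hL r m T S
  have hρ : (1 - ε) ∈ W.cyc T T 0 := (W.cyc T T 0).sub_mem (hW.calculus.one_mem T) hε
  have hvan : ∀ p, W.Vanishing S.toGenericIntersection (fun a => D.j a (Sum.inl p)) :=
    fun p => (hU _).1 (D.mem_U p)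
  have hpar : ∀ a b, D.j a b ≠ 0 → W.par T a = D.F.o b := by
    intro a b hab
    rw [D.o_eq b, ← D.j_deg a b hab]
    rfl
  obtain ⟨-, -, -, -, hder⟩ := hPFA K _ _ D.j (W.par T) D.F.o hpar
  have hsgj : ∀ b a, D.j b a ≠ 0 → (-1 : K) ^ W.deg T b = sg K (D.F.o a) := by
    intro b a hab
    rw [sg_par, hpar b a hab]
  refine {
    calculus := hCAL K W m T S.powers (1 - ε) hρ U n n' D
    st_V := D.st_V
    o_V := ?_
    mono := ?_
    endo := ?_
    large := ?_ }
  · -- parity of the vanishing classes
    intro p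
    have h1 : ∃ a, D.j a (Sum.inl p) ≠ 0 := by
      by_contra hne
      push Not at hne
      have h2 := congrFun (congrFun D.ij (Sum.inl p)) (Sum.inl p)
      rw [Matrix.mul_apply, Matrix.one_apply_eq] at h2
      rw [Finset.sum_eq_zero fun a _ => by rw [hne a, mul_zero]] at h2
      exact zero_ne_one h2
    obtain ⟨a, ha⟩ := h1
    have h3 : W.deg T a = W.dim T := (hvan p).1 a ha
    rw [← hpar a _ ha]
    unfold Weil.par
    rw [h3]
    exact decide_eq_true S.odd
  · -- the action of the Lie algebra
    intro p q k t ht w hw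
    obtain ⟨u, hu⟩ : ∃ u : W.H T, u = fun a => D.j a (Sum.inl p) := ⟨_, rfl⟩
    obtain ⟨v, hv⟩ : ∃ v : W.H T, v = fun a => D.j a (Sum.inl q) := ⟨_, rfl⟩
    have huV : W.Vanishing S.toGenericIntersection u := by rw [hu]; exact hvan p
    have hvV : W.Vanishing S.toGenericIntersection v := by rw [hv]; exact hvan q
    have huvV : W.Vanishing S.toGenericIntersection (u + v) :=
      (hU _).1 (U.add_mem ((hU _).2 huV) ((hU _).2 hvV))
    obtain ⟨B, hB⟩ : ∃ B : W.Hom T T, B = Matrix.of fun a b =>
      u a * ∑ c, v c * S.powers.form c b + v a * ∑ c, u c * S.powers.form c b := ⟨_, rfl⟩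
    have hsum : (Matrix.of fun a b => (u + v) a * ∑ c, (u + v) c * S.powers.form c b) =
        ((Matrix.of fun a b => u a * ∑ c, u c * S.powers.form c b) +
          Matrix.of fun a b => v a * ∑ c, v c * S.powers.form c b) + B := by
      rw [hB]
      ext a b
      simp only [Matrix.add_apply, Matrix.of_apply, Pi.add_apply, add_mul, Finset.sum_add_distrib,
        mul_add]
      ring
    have hBz : ∀ w', w'.length = 2 * k → der B (pf D.j t) w' = 0 := by
      intro w' hw'
      have h1 := S.monodromy (u + v) huvV k (pf D.j t) ht w' hw'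
      rw [hsum, der_add, der_add, S.monodromy u huV k (pf D.j t) ht w' hw',
        S.monodromy v hvV k (pf D.j t) ht w' hw', zero_add, zero_add] at h1
      exact h1
    have hBj : B * D.j = D.j * D.F.T (Sum.inl p) (Sum.inl q) := by
      ext a y
      have h1 : ∀ x, ∑ b, (∑ c, D.j c x * S.powers.form c b) * D.j b y = D.F.η x y := by
        intro x
        rw [← D.form]
        rfl
      have h2 : (B * D.j) a y = u a * D.F.η (Sum.inl q) y + v a * D.F.η (Sum.inl p) y := by
        rw [← h1 (Sum.inl q), ← h1 (Sum.inl p), Matrix.mul_apply, hB, Finset.mul_sum,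
          Finset.mul_sum, ← Finset.sum_add_distrib]
        refine Finset.sum_congr rfl fun b _ => ?_
        rw [Matrix.of_apply, hu, hv]
        ring
      rw [h2, Matrix.mul_apply]
      unfold Form.T
      simp only [Matrix.of_apply, mul_add, Finset.sum_add_distrib, mul_ite, mul_zero,
        Finset.sum_ite_eq', Finset.mem_univ, if_true]
      rw [hu, hv]
    have h3 := hder B (D.F.T (Sum.inl p) (Sum.inl q)) hBj t
    have h4 : pf D.i (pf D.j (der (D.F.T (Sum.inl p) (Sum.inl q)) t)) w = 0 := by
      refine pf_zero D.i w _ fun v' hv' => ?_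
      rw [← h3]
      exact hBz v' (hv'.trans hw)
    rw [(hPFB K _ _ _ D.i D.j).1, D.ij, (hPFB K _ _ _ D.i D.j).2.1] at h4
    exact h4
  · -- the correspondences
    intro t ht
    obtain ⟨f, hf⟩ : ∃ f : W.Hom T T, f = Matrix.of fun a b =>
      opw S.powers.form 1 (pf D.j t) [a] [b] := ⟨_, rfl⟩
    have hfc : f ∈ W.cyc T T 0 := (S.powers.graph_one f).2 ⟨_, ht, hf⟩
    obtain ⟨q, c, hc, hfq⟩ := hSCA K W hW V L hL r m T S f hfc
    obtain ⟨X, hX⟩ : ∃ X : W.Hom T T, X = W.comp (W.comp S.up c) S.down := ⟨_, rfl⟩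
    have hXc : X ∈ W.cyc T T 0 := by rw [hX]; exact S.restrict c hc
    have hfX : f = (q : K) • (1 : W.Hom T T) + X := by rw [hfq, hX]; rfl
    obtain ⟨t2, ht2⟩ : ∃ t2 : Matrix (Fin n ⊕ Fin n') (Fin n ⊕ Fin n') K,
      t2 = Matrix.of fun x y => t [x, y] := ⟨_, rfl⟩
    have hP2 : (Matrix.of fun a c => pf D.j t [a, c]) = D.j * t2 * D.jᵀ := by
      ext a c
      show ∑ x, D.j a x * ∑ y, D.j c y * t [x, y] = (D.j * t2 * D.jᵀ) a c
      simp only [Matrix.mul_apply, Finset.mul_sum, Finset.sum_mul, Matrix.transpose_apply]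
      rw [Finset.sum_comm]
      refine Finset.sum_congr rfl fun x _ => Finset.sum_congr rfl fun y _ => ?_
      rw [ht2, Matrix.of_apply]
      ring
    have hfm : f = D.j * t2 * (D.F.η * D.i) := by
      have h1 : f = (Matrix.of fun a c => pf D.j t [a, c]) * S.powers.form := by
        rw [hf]
        ext a b
        rw [Matrix.mul_apply]
        show opw S.powers.form 1 (pf D.j t) [a] [b] = _
        unfold opw
        rw [sum_vec1 (fun v => pf D.j t ([a] ++ v) *
          (List.zipWith (fun a b => S.powers.form a b) v.reverse [b]).prod)]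
        refine Finset.sum_congr rfl fun c _ => ?_
        show pf D.j t [a, c] * (List.zipWith (fun a b => S.powers.form a b) [c] [b]).prod =
          pf D.j t [a, c] * S.powers.form c b
        rw [List.zipWith_cons_cons, List.zipWith_nil_left, List.prod_cons, List.prod_nil, mul_one]
      rw [h1, hP2, Matrix.mul_assoc, D.form_i]
    have hifj : D.i * f * D.j = t2 * D.F.η := by
      rw [hfm]
      calc D.i * (D.j * t2 * (D.F.η * D.i)) * D.j
          = (D.i * D.j) * (t2 * D.F.η) * (D.i * D.j) := by simp only [Matrix.mul_assoc]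
        _ = t2 * D.F.η := by rw [D.ij, Matrix.one_mul, Matrix.mul_one]
    have hXj : ∀ x p, (D.i * X * D.j) x (Sum.inl p) = 0 := by
      intro x p
      have h1 : D.i * X * D.j = (D.i * (S.up * c)) * (S.down * D.j) := by
        rw [hX]
        show D.i * (S.up * c * S.down) * D.j = _
        simp only [Matrix.mul_assoc]
      rw [h1, Matrix.mul_apply]
      refine Finset.sum_eq_zero fun z _ => ?_
      have h2 : (S.down * D.j) z (Sum.inl p) = 0 := congrFun (hvan p).2 z
      rw [h2, mul_zero]
    refine ⟨q, fun p => ?_, ?_⟩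
    · have h1 : (D.i * f * D.j) (Sum.inl p) (Sum.inl p) = (q : K) := by
        have h2 : D.i * f * D.j = (q : K) • (D.i * D.j) + D.i * X * D.j := by
          rw [hfX, Matrix.mul_add, Matrix.add_mul, Matrix.mul_smul, Matrix.smul_mul,
            Matrix.mul_one]
        rw [h2, Matrix.add_apply, hXj, D.ij, Matrix.smul_apply, Matrix.one_apply_eq, smul_eq_mul,
          mul_one, add_zero]
      rw [hifj, mul_eta, ht2, Matrix.of_apply] at h1
      calc t [Sum.inl p, D.F.st (Sum.inl p)]
          = t [Sum.inl p, D.F.st (Sum.inl p)] *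
            (D.F.c (D.F.st (Sum.inl p)) * D.F.c (D.F.st (Sum.inl p))) := by
            rw [D.F.c_mul_self, mul_one]
        _ = (q : K) * D.F.c (D.F.st (Sum.inl p)) := by rw [← mul_assoc, h1]
    · have h1 : con D.F.η 0 t [] = ∑ a, sg K (D.F.o a) * (D.i * f * D.j) a a := by
        have h2 : con D.F.η 0 t [] = ∑ a, D.F.c a * t [a, D.F.st a] := D.F.con_append [] t []
        rw [h2]
        refine Finset.sum_congr rfl fun a _ => ?_
        rw [hifj, mul_eta, ht2, Matrix.of_apply, ← D.F.sg_c_st a]
        ring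
      have h3 : ∑ a, sg K (D.F.o a) * (D.i * f * D.j) a a = W.str ((1 - ε) * f) := by
        rw [str_cyc (fun a => sg K (D.F.o a)) (fun b => (-1 : K) ^ W.deg T b) (D.i * f) D.j hsgj,
          ← Matrix.mul_assoc, D.ji]
        rfl
      have h4 : W.str ((1 - ε) * f) = W.str (f * (1 - ε)) := by
        refine str_cyc (fun a => (-1 : K) ^ W.deg T a) (fun b => (-1 : K) ^ W.deg T b) (1 - ε) f ?_
        intro b a hba
        have h5 := hW.calculus.cyc_deg T T 0 f hfc b a hba
        have h6 : W.deg T b = W.deg T a := by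
          have h7 : (W.deg T b : ℤ) = W.deg T a := by rw [h5]; ring
          exact_mod_cast h7
        rw [h6]
      have h8 : W.str (X * (1 - ε)) = 0 := by
        refine hmax X hXc fun u hu => ?_
        show X *ᵥ u = 0
        have h9 : S.down *ᵥ u = 0 := hu.2
        rw [hX]
        show (S.up * c * S.down) *ᵥ u = 0
        rw [← Matrix.mulVec_mulVec, h9, Matrix.mulVec_zero]
      have h10 : W.str (1 - ε) = D.F.sd := by
        have h11 := str_cyc (fun a => sg K (D.F.o a)) (fun b => (-1 : K) ^ W.deg T b) D.i D.j hsgj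
        rw [D.ij, D.ji] at h11
        have h12 : ∑ a, sg K (D.F.o a) * (1 : Matrix (Fin n ⊕ Fin n') (Fin n ⊕ Fin n') K) a a =
            D.F.sd := by
          unfold Form.sd
          refine Finset.sum_congr rfl fun a _ => ?_
          rw [Matrix.one_apply_eq, mul_one]
        rw [← h12, h11]
        rfl
      rw [h1, h3, h4]
      have h13 : f * (1 - ε) = (q : K) • (1 - ε) + X * (1 - ε) := by
        rw [hfX, Matrix.add_mul, Matrix.smul_mul, Matrix.one_mul]
      have h14 : W.str (f * (1 - ε)) = (q : K) * W.str (1 - ε) + W.str (X * (1 - ε)) := by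
        rw [h13]
        unfold Weil.str
        rw [Finset.mul_sum, ← Finset.sum_add_distrib]
        refine Finset.sum_congr rfl fun a _ => ?_
        rw [Matrix.add_apply, Matrix.smul_apply, smul_eq_mul]
        ring
      rw [h14, h8, h10, add_zero]
  · -- the rank
    have h1 := hV4 U hU
    have h2 := D.rank_U
    have h3 := D.rank_le
    have h4 := S.large
    rw [Fintype.card_fin, Fintype.card_fin]
    rw [← h2] at h1
    have h5 : n' ≤ W.rk V := by omega
    have h6 : 2 * n' ^ 2 + n' ≤ 2 * W.rk V ^ 2 + W.rk V := by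
      have := Nat.pow_le_pow_left h5 2
      omega
    have h7 : 2 * W.rk V * (W.rk V + 1) = 2 * W.rk V ^ 2 + 2 * W.rk V := by ring
    omega

end Pool.Agent.H16.NL
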